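import Mathlib
import Pool.Agent.N936.TC.Stm

/-! Leaf TC/IND of project TC (helper936): the suspension is indecomposable (helper287). -/

set_option autoImplicit false

namespace Pool.Agent.N287.TC

open Set Topology
open Pool.Agent.N936.TC

/-- a short interval near a point of the unit interval, inside the open unit interval -/
lemma short (s : I) {ε : ℝ} (hε : 0 < ε) : ∃ a b : ℝ, 0 < a ∧ a < b ∧ b < 1 ∧
    ∀ t : I, a < t → (t : ℝ) < b → |(t : ℝ) - s| < ε := by
  have h0 := s.2.1
  have h1 := s.2.2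
  set e := min ε 1 with he
  have he0 : 0 < e := lt_min hε one_pos
  have he1 : e ≤ 1 := min_le_right _ _
  have he2 : e ≤ ε := min_le_left _ _
  rcases le_total (s : ℝ) (1 / 2) with h | h
  · refine ⟨s + e / 8, s + e / 4, by linarith, by linarith, by linarith, fun t h2 h3 => ?_⟩
    rw [abs_lt]
    constructor <;> linarith
  · refine ⟨s - e / 4, s - e / 8, by linarith, by linarith, by linarith, fun t h2 h3 => ?_⟩
    rw [abs_lt]
    constructor <;> linarith

/-- the cut-off -/
noncomputable def tau (a b s : ℝ) : ℝ := min 1 (max 0 ((s - a) / (b - a)))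

lemma tau_cont (a b : ℝ) : Continuous (tau a b) := by
  unfold tau
  fun_prop

lemma tau_lo {a b s : ℝ} (hab : a < b) (h : s ≤ a) : tau a b s = 0 := by
  unfold tau
  have : (s - a) / (b - a) ≤ 0 := div_nonpos_of_nonpos_of_nonneg (by linarith) (by linarith)
  rw [max_eq_left this]
  norm_num

lemma tau_hi {a b s : ℝ} (hab : a < b) (h : b ≤ s) : tau a b s = 1 := by
  unfold tau
  have : 1 ≤ (s - a) / (b - a) := by
    rw [le_div_iff₀ (by linarith)]
    linarith
  rw [max_eq_right (by linarith)]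
  exact min_eq_left this

/-- the indicator of a set of sequences -/
noncomputable def chi (D : Set Q) : Q → ℝ := D.indicator 1

lemma chi_mem {D : Set Q} {q : Q} (h : q ∈ D) : chi D q = 1 := by simp [chi, h]
lemma chi_not {D : Set Q} {q : Q} (h : q ∉ D) : chi D q = 0 := by simp [chi, h]

lemma chi_cont {D : Set Q} (hD : IsClopen D) : Continuous (chi D) :=
  hD.continuous_indicator continuous_one

/-- the function which separates -/
noncomputable def ff (σ : Bool → Q ≃ₜ Q) (D : Set Q) (a b : ℝ) (p : Q × Bool × I) : ℝ :=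
  (1 - tau a b p.2.2) * chi D p.1 + tau a b p.2.2 * chi D (σ p.2.1 p.1)

lemma ff_cont (σ : Bool → Q ≃ₜ Q) {D : Set Q} (hD : IsClopen D) (a b : ℝ) :
    Continuous (ff σ D a b) := by
  have h1 : Continuous fun p : Q × Bool × I => tau a b (p.2.2 : ℝ) :=
    (tau_cont a b).comp (by fun_prop)
  have h2 : Continuous fun p : Q × Bool × I => chi D p.1 := (chi_cont hD).comp (by fun_prop)
  have h3 : Continuous fun p : Q × Bool × I => chi D (σ p.2.1 p.1) := by
    have hu : Continuous fun i : Bool => (if i then (1 : ℝ) else 0) := continuous_of_discreteTopology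
    have e : (fun p : Q × Bool × I => chi D (σ p.2.1 p.1)) = fun p =>
        (if p.2.1 then (1 : ℝ) else 0) * chi D (σ true p.1) +
          (1 - (if p.2.1 then (1 : ℝ) else 0)) * chi D (σ false p.1) := by
      funext p
      rcases p with ⟨q, i, s⟩
      cases i <;> simp
    rw [e]
    have h4 : Continuous fun p : Q × Bool × I => (if p.2.1 then (1 : ℝ) else 0) :=
      hu.comp (by fun_prop)
    have h5 : ∀ j, Continuous fun p : Q × Bool × I => chi D (σ j p.1) := fun j =>
      (chi_cont hD).comp ((σ j).continuous.comp (by fun_prop))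
    exact (h4.mul (h5 true)).add ((continuous_const.sub h4).mul (h5 false))
  unfold ff
  exact ((continuous_const.sub h1).mul h2).add (h1.mul h3)

theorem t_ind : Pool.Agent.N936.TC.S_IND := by
  intro σ X _ _ Φ hM hC A B hA hB hAB
  by_contra hcon
  push Not at hcon
  obtain ⟨hA1, hB1⟩ := hcon
  have hAc : IsClosed A := hA.1.isClosed
  have hBc : IsClosed B := hB.1.isClosed
  obtain ⟨p1, hp1⟩ := (ne_univ_iff_exists_notMem A).1 hA1
  obtain ⟨p2, hp2⟩ := (ne_univ_iff_exists_notMem B).1 hB1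
  obtain ⟨⟨q1, i1, s1⟩, rfl⟩ := hM.surj p1
  obtain ⟨⟨q2, i2, s2⟩, rfl⟩ := hM.surj p2
  -- a box which avoids `A`
  have hopen : IsOpen {z : Q × I | Φ (z.1, i1, z.2) ∈ Aᶜ} :=
    hAc.isOpen_compl.preimage (hM.cont.comp (by fun_prop))
  obtain ⟨C1, V, hC1, hV, hq1, hs1, hsub⟩ := isOpen_prod_iff.1 hopen q1 s1 hp1
  obtain ⟨ε, hε, hball⟩ := Metric.isOpen_iff.1 hV s1 hs1
  obtain ⟨a, b, ha, hab, hb, hint⟩ := short s1 hε
  have havoid : ∀ q ∈ C1, ∀ s : I, a < s → (s : ℝ) < b → Φ (q, i1, s) ∉ A := by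
    intro q hq s h1 h2
    have h3 : s ∈ V := hball (by
      rw [Metric.mem_ball, Subtype.dist_eq, Real.dist_eq]
      exact hint s h1 h2)
    exact hsub (mk_mem_prod hq h3)
  -- the section of the complement of `B`
  have hopen2 : IsOpen {q : Q | Φ (q, i2, s2) ∈ Bᶜ} :=
    hBc.isOpen_compl.preimage (hM.cont.comp (by fun_prop))
  obtain ⟨D, hD, hcut, ⟨y, hy, hyD, hyσ⟩, ⟨z, hz, hzD, hzσ⟩⟩ :=
    hC i1 C1 _ hC1 ⟨q1, hq1⟩ hopen2 ⟨q2, hp2⟩
  have ht0 : tau a b ((0 : I) : ℝ) = 0 := tau_lo hab (by simpa using ha.le)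
  have ht1 : tau a b ((1 : I) : ℝ) = 1 := tau_hi hab (by simpa using hb.le)
  obtain ⟨g, hg, hgf⟩ := hM.fact (ff σ D a b) (ff_cont σ hD a b)
    (fun q i j => by unfold ff; simp only [ht0]; ring)
    (fun q i j => by unfold ff; simp only [ht0, ht1]; ring)
  -- values on `A`
  have hval : ∀ x ∈ A, g x = 0 ∨ g x = 1 := by
    intro x hx
    obtain ⟨⟨q, i, s⟩, rfl⟩ := hM.surj x
    rw [hgf]
    unfold ff
    have h01 : ∀ w : Q, chi D w = 0 ∨ chi D w = 1 := fun w => by
      by_cases h : w ∈ D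
      · right; exact chi_mem h
      · left; exact chi_not h
    rcases hcut i q with h | ⟨rfl, h⟩
    · have e : chi D (σ i q) = chi D q := by
        by_cases h1 : q ∈ D
        · rw [chi_mem h1, chi_mem (h.1 h1)]
        · rw [chi_not h1, chi_not (fun h2 => h1 (h.2 h2))]
      simp only [e]
      have : (1 - tau a b (s : ℝ)) * chi D q + tau a b (s : ℝ) * chi D q = chi D q := by ring
      rw [this]
      exact h01 q
    · by_cases hs : a < (s : ℝ) ∧ (s : ℝ) < b
      · exact absurd hx (havoid q h s hs.1 hs.2)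
      · rw [not_and_or, not_lt, not_lt] at hs
        rcases hs with hs | hs
        · simp only [tau_lo hab hs]
          simpa using h01 q
        · simp only [tau_hi hab hs]
          simpa using h01 (σ i q)
  have hmemA : ∀ q, Φ (q, i2, s2) ∈ Bᶜ → Φ (q, i2, s2) ∈ A := by
    intro q hq
    have : Φ (q, i2, s2) ∈ A ∪ B := by rw [hAB]; trivial
    exact this.resolve_right hq
  have g1 : g (Φ (y, i2, s2)) = 1 := by
    rw [hgf]
    unfold ff
    simp only [chi_mem hyD, chi_mem (hyσ i2)]
    ring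
  have g0 : g (Φ (z, i2, s2)) = 0 := by
    rw [hgf]
    unfold ff
    simp only [chi_not hzD, chi_not (hzσ i2)]
    ring
  have hiv := hA.2.isPreconnected.intermediate_value (hmemA z hz) (hmemA y hy) hg.continuousOn
  rw [g0, g1] at hiv
  obtain ⟨x, hx, hgx⟩ := hiv (show (1 / 2 : ℝ) ∈ Icc (0 : ℝ) 1 by norm_num)
  rcases hval x hx with h | h <;> · rw [h] at hgx; norm_num at hgx

end Pool.Agent.N287.TC
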